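import Pool.Agent.H66.L.S8.W564.SC.Defs

/-!
# SC-LOC (helper683 for helper564): convergence of the jets in charts
-/

set_option linter.unusedSectionVars false

open scoped Manifold ContDiff Topology
open Filter Set Metric

universe u

namespace Pool.Agent.W683.SC

open Pool.Agent.H718R2.G Pool.Agent.W564.SC

section Gen

variable {E E' : Type} [NormedAddCommGroup E] [NormedSpace ℝ E] [NormedAddCommGroup E']
  [NormedSpace ℝ E']

/-- constant sequences of maps -/
theorem jet_const {k : ℕ} {G : E → E'} {y : ℕ → E} {y₀ : E} (hy : Tendsto y atTop (𝓝 y₀))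
    (hG : ContDiffAt ℝ k G y₀) : JetConv k (fun _ => G) y G y₀ where
  pt := hy
  smooth := hy.eventually (hG.eventually (by simp))
  smooth₀ := hG
  conv j hj := by
    have h1 : ContDiffAt ℝ 0 (iteratedFDeriv ℝ j G) y₀ :=
      hG.iteratedFDeriv_right (by rw [zero_add]; exact_mod_cast hj)
    exact h1.continuousAt.tendsto.comp hy

/-- small perturbations -/
theorem jet_add {k : ℕ} {a c : ℕ → E → E'} {y : ℕ → E} {b : E → E'} {y₀ : E}
    (h : JetConv k a y b y₀) (hc : ∀ m, ContDiff ℝ k (c m))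
    (hc0 : ∀ j ≤ k, Tendsto (fun m => iteratedFDeriv ℝ j (c m) (y m)) atTop (𝓝 0)) :
    JetConv k (fun m => a m + c m) y b y₀ where
  pt := h.pt
  smooth := h.smooth.mono fun m hm => hm.add (hc m).contDiffAt
  smooth₀ := h.smooth₀
  conv j hj := by
    have h1 := (h.conv j hj).add (hc0 j hj)
    rw [add_zero] at h1
    refine h1.congr' ?_
    filter_upwards [h.smooth] with m hm
    rw [iteratedFDeriv_add_apply (hm.of_le (by exact_mod_cast hj))
      ((hc m).contDiffAt.of_le (by exact_mod_cast hj))]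

/-- the slices -/
theorem jet_slice {P : Type} [NormedAddCommGroup P] [NormedSpace ℝ P] {k : ℕ} {s : ℕ → P}
    (hs : Tendsto s atTop (𝓝 0)) {y : ℕ → E} {y₀ : E} (hy : Tendsto y atTop (𝓝 y₀)) :
    JetConv k (fun m (y : E) => (s m, y)) y (fun y => ((0 : P), y)) y₀ := by
  have h0 : ContDiff ℝ k (fun y : E => ((0 : P), y)) := contDiff_const.prodMk contDiff_id
  have h1 := jet_add (jet_const hy h0.contDiffAt) (c := fun m (_ : E) => (s m, (0 : E)))
    (fun m => contDiff_const) ?_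
  · have e : (fun m (y : E) => (s m, y)) =
        fun m => (fun y : E => ((0 : P), y)) + fun (_ : E) => (s m, (0 : E)) := by
      funext m y
      simp
    rw [e]
    exact h1
  · intro j _
    rw [tendsto_zero_iff_norm_tendsto_zero]
    by_cases hj : j = 0
    · subst hj
      simp only [norm_iteratedFDeriv_zero]
      have h2 : Tendsto (fun m => ‖(s m, (0 : E))‖) atTop (𝓝 ‖((0 : P), (0 : E))‖) :=
        ((hs.prodMk_nhds tendsto_const_nhds)).norm
      rw [show ((0 : P), (0 : E)) = 0 from rfl, norm_zero] at h2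
      exact h2
    · simp only [iteratedFDeriv_const_of_ne hj, Pi.zero_apply, norm_zero]
      exact tendsto_const_nhds

end Gen

section Man

variable {n : ℕ} {N : Type u} [TopologicalSpace N] [ChartedSpace (V n) N]
  [IsManifold (𝓡 n) ∞ N] {r : ℕ∞} {P : Type} [NormedAddCommGroup P] [NormedSpace ℝ P]
  {H : P → DiffM n N r}

/-- the local representative is jointly smooth -/
theorem fam_smooth (hfam : IsFam n N r H) {φ χ : OpenPartialHomeomorph N (V n)}
    (hφ : φ ∈ IsManifold.maximalAtlas (𝓡 n) ∞ N) (hχ : χ ∈ IsManifold.maximalAtlas (𝓡 n) ∞ N)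
    {x₀ : N} (hx : x₀ ∈ φ.source) (hw : H 0 x₀ ∈ χ.source) :
    ContDiffAt ℝ r (fun q : P × V n => χ (H q.1 (φ.symm q.2))) ((0 : P), φ x₀) := by
  have hsymm : ContMDiffAt (𝓡 n) (𝓡 n) r φ.symm (φ x₀) :=
    (contMDiffAt_symm_of_mem_maximalAtlas hφ (φ.map_source hx)).of_le (by exact_mod_cast le_top)
  have hpair : ContMDiffAt (𝓘(ℝ, P).prod (𝓡 n)) (𝓘(ℝ, P).prod (𝓡 n)) r
      (fun q : P × V n => (q.1, φ.symm q.2)) ((0 : P), φ x₀) :=
    ContMDiffAt.prodMk contMDiffAt_fst (ContMDiffAt.comp ((0 : P), φ x₀) (g := φ.symm)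
      (f := Prod.snd) hsymm contMDiffAt_snd)
  have hH : ContMDiffAt (𝓘(ℝ, P).prod (𝓡 n)) (𝓡 n) r
      (fun q : P × V n => H q.1 (φ.symm q.2)) ((0 : P), φ x₀) := by
    refine ContMDiffAt.comp ((0 : P), φ x₀) (g := fun q : P × N => H q.1 q.2)
      (f := fun q : P × V n => (q.1, φ.symm q.2)) ?_ hpair
    have := hfam x₀
    simp only [φ.left_inv hx]
    exact this
  have hχ' : ContMDiffAt (𝓡 n) (𝓡 n) r χ (H 0 x₀) :=
    (contMDiffAt_of_mem_maximalAtlas hχ hw).of_le (by exact_mod_cast le_top)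
  have hG : ContMDiffAt (𝓘(ℝ, P).prod (𝓡 n)) (𝓡 n) r
      (fun q : P × V n => χ (H q.1 (φ.symm q.2))) ((0 : P), φ x₀) := by
    refine ContMDiffAt.comp ((0 : P), φ x₀) (g := χ)
      (f := fun q : P × V n => H q.1 (φ.symm q.2)) ?_ hH
    simp only [φ.left_inv hx]
    exact hχ'
  rw [← contMDiffAt_iff_contDiffAt, modelWithCornersSelf_prod, ← chartedSpaceSelf_prod]
  exact hG

/-- joint continuity -/
theorem fam_tendsto (hfam : IsFam n N r H) {x : ℕ → N} {x₀ : N} (hx : Tendsto x atTop (𝓝 x₀))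
    {s : ℕ → P} (hs : Tendsto s atTop (𝓝 0)) :
    Tendsto (fun m => H (s m) (x m)) atTop (𝓝 (H 0 x₀)) :=
  (hfam x₀).continuousAt.tendsto.comp (hs.prodMk_nhds hx)

/-- the jets of the family -/
theorem jet_fam (hcomp : S_COMP) (hfam : IsFam n N r H) {φ χ : OpenPartialHomeomorph N (V n)}
    (hφ : φ ∈ IsManifold.maximalAtlas (𝓡 n) ∞ N) (hχ : χ ∈ IsManifold.maximalAtlas (𝓡 n) ∞ N)
    {x : ℕ → N} {x₀ : N} (hx : Tendsto x atTop (𝓝 x₀)) (hx₀ : x₀ ∈ φ.source)
    (hw : H 0 x₀ ∈ χ.source) {s : ℕ → P} (hs : Tendsto s atTop (𝓝 0)) {k : ℕ}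
    (hk : (k : ℕ∞) ≤ r) :
    JetConv k (fun m => χ ∘ H (s m) ∘ φ.symm) (fun m => φ (x m)) (χ ∘ H 0 ∘ φ.symm) (φ x₀) := by
  have hy : Tendsto (fun m => φ (x m)) atTop (𝓝 (φ x₀)) :=
    (φ.continuousAt hx₀).tendsto.comp hx
  have hG : ContDiffAt ℝ k (fun q : P × V n => χ (H q.1 (φ.symm q.2))) ((0 : P), φ x₀) :=
    (fam_smooth hfam hφ hχ hx₀ hw).of_le (by exact_mod_cast hk)
  exact hcomp (V n) (P × V n) (V n) k (fun m y => (s m, y)) (fun m => φ (x m))
    (fun y => ((0 : P), y)) (φ x₀) (fun _ => fun q : P × V n => χ (H q.1 (φ.symm q.2)))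
    (fun q : P × V n => χ (H q.1 (φ.symm q.2))) (jet_slice hs hy)
    (jet_const (hs.prodMk_nhds hy) hG)

end Man

/-- LOC -/
theorem loc (h : S_COMP) : S_LOC.{u} := by
  intro n N _ _ _ _ _ r P _ _ H hfam χ z hχ k hk φ ψ hφ hψ x x₀ hx hx₀ hw s hs u κ hκ hu Θ hΘ
  have hH : Tendsto (fun m => H (s m) (x m)) atTop (𝓝 (H 0 x₀)) := fam_tendsto hfam hx hs
  have hxφ : ∀ᶠ m in atTop, x m ∈ φ.source := hx.eventually (φ.open_source.mem_nhds hx₀)
  set Kc : Set N := χ.symm '' closedBall (0 : V n) (1 / 2) with hKc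
  have hsub : closedBall (0 : V n) (1 / 2) ⊆ χ.target :=
    (closedBall_subset_closedBall (by norm_num)).trans hχ.ball
  have hKcl : IsClosed Kc := by
    refine IsCompact.isClosed ?_
    exact (isCompact_closedBall _ _).image_of_continuousOn (χ.continuousOn_symm.mono hsub)
  -- outside of `Kc` the maps `Θ m` are the identity
  have hid : ∀ m, ∀ y ∉ Kc, Θ m y = y := by
    intro m y hy
    by_cases hys : y ∈ χ.source
    · obtain ⟨h1, h2⟩ := (hΘ m).1 y hys
      have h3 : 1 / 2 ≤ ‖χ y‖ := by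
        by_contra hcon
        refine hy ⟨χ y, ?_, χ.left_inv hys⟩
        rw [mem_closedBall, dist_zero_right]
        exact (not_le.1 hcon).le
      rw [(hu m).supp _ h3, add_zero] at h2
      exact χ.injOn h1 hys h2
    · exact (hΘ m).2 y hys
  by_cases hwK : H 0 x₀ ∈ Kc
  · -- inside
    obtain ⟨v₀, hv₀, hv₀'⟩ := hwK
    have hwχ : H 0 x₀ ∈ χ.source := by
      rw [← hv₀']
      exact χ.map_target (hsub hv₀)
    have hHχ : ∀ᶠ m in atTop, H (s m) (x m) ∈ χ.source :=
      hH.eventually (χ.open_source.mem_nhds hwχ)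
    have J1 := jet_fam h hfam hφ hχ.mem hx hx₀ hwχ hs hk
    have ept : ∀ᶠ m in atTop, (χ ∘ H (s m) ∘ φ.symm) (φ (x m)) = χ (H (s m) (x m)) := by
      filter_upwards [hxφ] with m hm
      simp only [Function.comp, φ.left_inv hm]
    have e0 : (χ ∘ H 0 ∘ φ.symm) (φ x₀) = χ (H 0 x₀) := by
      simp only [Function.comp, φ.left_inv hx₀]
    have t1 : Tendsto (fun m => (χ ∘ H (s m) ∘ φ.symm) (φ (x m))) atTop
        (𝓝 ((χ ∘ H 0 ∘ φ.symm) (φ x₀))) := by
      rw [e0]
      refine ((χ.continuousAt hwχ).tendsto.comp hH).congr' ?_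
      filter_upwards [ept] with m hm
      exact hm.symm
    have hκ0 : ∀ j ≤ k, ∀ y : ℕ → V n,
        Tendsto (fun m => iteratedFDeriv ℝ j (u m) (y m)) atTop (𝓝 0) := by
      intro j hj y
      rw [tendsto_zero_iff_norm_tendsto_zero]
      exact squeeze_zero (fun m => norm_nonneg _) (fun m => (hu m).bd j hj (y m)) hκ
    have J2 : JetConv k (fun m => (id : V n → V n) + u m)
        (fun m => (χ ∘ H (s m) ∘ φ.symm) (φ (x m))) id ((χ ∘ H 0 ∘ φ.symm) (φ x₀)) :=
      jet_add (jet_const t1 contDiff_id.contDiffAt)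
        (fun m => (hu m).smooth.of_le (by exact_mod_cast le_top)) (fun j hj => hκ0 j hj _)
    have J12 := h (V n) (V n) (V n) k _ _ _ _ _ _ J1 J2
    have t2 : Tendsto (fun m => (((id : V n → V n) + u m) ∘ (χ ∘ H (s m) ∘ φ.symm)) (φ (x m)))
        atTop (𝓝 ((id ∘ (χ ∘ H 0 ∘ φ.symm)) (φ x₀))) := by
      have h1 : Tendsto (fun m => u m ((χ ∘ H (s m) ∘ φ.symm) (φ (x m)))) atTop (𝓝 0) := by
        rw [tendsto_zero_iff_norm_tendsto_zero]
        refine squeeze_zero (fun m => norm_nonneg _) (fun m => ?_) hκ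
        have := (hu m).bd 0 (Nat.zero_le k) ((χ ∘ H (s m) ∘ φ.symm) (φ (x m)))
        rwa [norm_iteratedFDeriv_zero] at this
      have h2 := t1.add h1
      rw [add_zero] at h2
      exact h2
    have hG3 : ContDiffAt ℝ k (ψ ∘ χ.symm) ((id ∘ (χ ∘ H 0 ∘ φ.symm)) (φ x₀)) := by
      have e1 : (id ∘ (χ ∘ H 0 ∘ φ.symm)) (φ x₀) = χ (H 0 x₀) := e0
      rw [e1, ← contMDiffAt_iff_contDiffAt]
      have h1 : ContMDiffAt (𝓡 n) (𝓡 n) ∞ χ.symm (χ (H 0 x₀)) :=
        contMDiffAt_symm_of_mem_maximalAtlas hχ.mem (χ.map_source hwχ)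
      have h2 : ContMDiffAt (𝓡 n) (𝓡 n) ∞ ψ (H 0 x₀) := contMDiffAt_of_mem_maximalAtlas hψ hw
      have h3 : ContMDiffAt (𝓡 n) (𝓡 n) ∞ (ψ ∘ χ.symm) (χ (H 0 x₀)) := by
        refine ContMDiffAt.comp _ ?_ h1
        rw [χ.left_inv hwχ]
        exact h2
      exact h3.of_le (by exact_mod_cast le_top)
    have J3 := jet_const t2 hG3
    have J := h (V n) (V n) (V n) k _ _ _ _ _ _ J12 J3
    -- the first claim
    have key : ∀ m, ∀ y ∈ χ.source, Θ m y = χ.symm (χ y + u m (χ y)) := by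
      intro m y hy
      obtain ⟨h1, h2⟩ := (hΘ m).1 y hy
      rw [← h2, χ.left_inv h1]
    constructor
    · have e1 : (id ∘ (χ ∘ H 0 ∘ φ.symm)) (φ x₀) = χ (H 0 x₀) := e0
      rw [e1] at t2
      have c1 : ContinuousAt χ.symm (χ (H 0 x₀)) := χ.continuousAt_symm (χ.map_source hwχ)
      have t3 := c1.tendsto.comp t2
      rw [χ.left_inv hwχ] at t3
      have h4 := t3.eventually (ψ.open_source.mem_nhds hw)
      filter_upwards [h4, hHχ, ept] with m h5 h6 h7
      rw [key m _ h6]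
      simp only [Function.comp, Pi.add_apply, id] at h5 h7
      rw [h7] at h5
      exact h5
    · intro j hj
      have hc := J.conv j hj
      have e3 : iteratedFDeriv ℝ j ((ψ ∘ χ.symm) ∘ (id ∘ (χ ∘ H 0 ∘ φ.symm))) (φ x₀) =
          iteratedFDeriv ℝ j (ψ ∘ H 0 ∘ φ.symm) (φ x₀) := by
        refine (Filter.EventuallyEq.iteratedFDeriv ℝ ?_ j).eq_of_nhds
        have c1 : ContinuousAt (fun y => H 0 (φ.symm y)) (φ x₀) := by
          refine ContinuousAt.comp (g := H 0) (f := φ.symm) ?_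
            (φ.continuousAt_symm (φ.map_source hx₀))
          exact (H 0).continuous.continuousAt
        have c2 : ∀ᶠ y in 𝓝 (φ x₀), H 0 (φ.symm y) ∈ χ.source := by
          refine c1.eventually (χ.open_source.mem_nhds ?_)
          simp only [φ.left_inv hx₀]
          exact hwχ
        filter_upwards [c2] with y hy
        simp only [Function.comp, id, χ.left_inv hy]
      rw [e3] at hc
      refine hc.congr' ?_
      filter_upwards [hHχ, hxφ] with m hm hm'
      refine (Filter.EventuallyEq.iteratedFDeriv ℝ ?_ j).eq_of_nhds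
      have c1 : ContinuousAt (fun y => H (s m) (φ.symm y)) (φ (x m)) := by
        refine ContinuousAt.comp (g := H (s m)) (f := φ.symm) ?_
          (φ.continuousAt_symm (φ.map_source hm'))
        exact (H (s m)).continuous.continuousAt
      have c2 : ∀ᶠ y in 𝓝 (φ (x m)), H (s m) (φ.symm y) ∈ χ.source := by
        refine c1.eventually (χ.open_source.mem_nhds ?_)
        simp only [φ.left_inv hm']
        exact hm
      filter_upwards [c2] with y hy
      simp only [Function.comp, Pi.add_apply, id, key m _ hy]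
  · -- outside
    have hO : ∀ᶠ m in atTop, H (s m) (x m) ∈ Kcᶜ :=
      hH.eventually (hKcl.isOpen_compl.mem_nhds hwK)
    have hψ' : ∀ᶠ m in atTop, H (s m) (x m) ∈ ψ.source :=
      hH.eventually (ψ.open_source.mem_nhds hw)
    constructor
    · filter_upwards [hO, hψ'] with m h1 h2
      rw [hid m _ h1]
      exact h2
    · intro j hj
      have hc := (jet_fam h hfam hφ hψ hx hx₀ hw hs hk).conv j hj
      refine hc.congr' ?_
      filter_upwards [hO, hxφ] with m hm hm'
      refine (Filter.EventuallyEq.iteratedFDeriv ℝ ?_ j).eq_of_nhds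
      have c1 : ContinuousAt (fun y => H (s m) (φ.symm y)) (φ (x m)) := by
        refine ContinuousAt.comp (g := H (s m)) (f := φ.symm) ?_
          (φ.continuousAt_symm (φ.map_source hm'))
        exact (H (s m)).continuous.continuousAt
      have c2 : ∀ᶠ y in 𝓝 (φ (x m)), H (s m) (φ.symm y) ∈ Kcᶜ := by
        refine c1.eventually (hKcl.isOpen_compl.mem_nhds ?_)
        simp only [φ.left_inv hm']
        exact hm
      filter_upwards [c2] with y hy
      simp only [Function.comp, hid m _ hy]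

end Pool.Agent.W683.SC
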